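import Mathlib
import Pool.Agent.H99.Half

/-!
MP_058dd4_co, Q2: balanced halfspaces of the cube with few distinct weights.

The cube `{-1,1}^m` is coded as `Fin m → Bool` (`true = +1`, `false = -1`).
-/

namespace Pool.Agent.Results.MP_058dd4_co.DistinctWeights

open Finset

/-- the balanced halfspace `{x ∈ {-1,1}^m : a_1 x_1 + ... + a_m x_m ≥ 0}` -/
def halfspace {m : ℕ} (a : Fin m → ℝ) : Set (Fin m → Bool) :=
  {x | 0 ≤ ∑ i, a i * (if x i = true then 1 else -1)}

/-- average stretch of `f : {-1,1}^n → {-1,1}^m`: the mean of `d (f x) (f y)` over the edges `x y`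
of the cube (`y` is `x` with the coordinate `i` flipped) -/
noncomputable def avgStretch {n m : ℕ} (f : (Fin n → Bool) → (Fin m → Bool)) : ℝ :=
  (∑ x, ∑ i, (hammingDist (f x) (f (Function.update x i (!(x i)))) : ℝ)) / (2 ^ n * n)

/-- the number of distinct absolute values `|a i|` -/
noncomputable def numWeights {m : ℕ} (a : Fin m → ℝ) : ℕ :=
  (univ.image fun i => |a i|).card

theorem result (n : ℕ) (a : Fin (n + 1) → ℝ) (ha : (halfspace a).ncard = 2 ^ n) :
    ∃ f : (Fin n → Bool) → (Fin (n + 1) → Bool), Set.BijOn f Set.univ (halfspace a) ∧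
      avgStretch f ≤ 11 + 2 * Real.sqrt (numWeights a) := by
  classical
  have hH : halfspace a = {y | 0 ≤ ∑ i, a i * H99.Bracket.sg (y i)} := rfl
  rw [hH] at ha
  have ht := H99.Half.no_ties a ha
  set S : Finset ℝ := univ.image fun i => |a i| with hS
  let cl : Fin n → {r // r ∈ S} := fun i =>
    ⟨|a i.castSucc|, Finset.mem_image_of_mem (fun i => |a i|) (Finset.mem_univ _)⟩
  have hw : ∀ c : {r // r ∈ S}, 0 ≤ c.1 := by
    rintro ⟨r, hr⟩
    obtain ⟨i, _, rfl⟩ := Finset.mem_image.1 hr
    exact abs_nonneg _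
  obtain ⟨f, hinj, hran, hsum⟩ := H99.Half.exists_map cl Subtype.val hw a (fun i => rfl) ht
  refine ⟨f, ⟨?_, hinj.injOn, ?_⟩, ?_⟩
  · intro x _
    rw [hH, ← hran]
    exact Set.mem_range_self x
  · rw [hH, ← hran]
    rintro _ ⟨x, rfl⟩
    exact ⟨x, Set.mem_univ _, rfl⟩
  · unfold avgStretch
    rcases Nat.eq_zero_or_pos n with rfl | hn
    · simp
      positivity
    have hn' : (0 : ℝ) < n := by exact_mod_cast hn
    rw [div_le_iff₀ (by positivity)]
    refine hsum.trans ?_
    have h1 : (∑ c, Real.sqrt (H99.Half.mc cl c)) ≤ Real.sqrt (numWeights a) * Real.sqrt n := by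
      rw [← Real.sqrt_mul (by positivity)]
      apply Real.le_sqrt_of_sq_le
      refine (sq_sum_le_card_mul_sum_sq).trans ?_
      have e1 : ∑ c, Real.sqrt (H99.Half.mc cl c) ^ 2 = (n : ℝ) := by
        have h := H99.Half.sum_mc cl
        have h2 : (n : ℝ) = ((∑ c, H99.Half.mc cl c : ℕ) : ℝ) := by rw [h]
        rw [h2]
        push_cast
        refine Finset.sum_congr rfl fun c _ => ?_
        exact Real.sq_sqrt (by positivity)
      rw [e1]
      have e2 : (univ : Finset {r // r ∈ S}).card = numWeights a := by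
        rw [Finset.card_univ, Fintype.card_coe]
        rfl
      rw [e2]
    have h2 : Real.sqrt n * Real.sqrt n = n := Real.mul_self_sqrt hn'.le
    have h3 : 2 * Real.sqrt n * (∑ c, Real.sqrt (H99.Half.mc cl c)) ≤
        2 * Real.sqrt (numWeights a) * n := by
      calc 2 * Real.sqrt n * (∑ c, Real.sqrt (H99.Half.mc cl c))
          ≤ 2 * Real.sqrt n * (Real.sqrt (numWeights a) * Real.sqrt n) := by gcongr
        _ = 2 * Real.sqrt (numWeights a) * (Real.sqrt n * Real.sqrt n) := by ring
        _ = _ := by rw [h2]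
    calc (2 : ℝ) ^ n * (11 * n + 2 * Real.sqrt n * ∑ c, Real.sqrt (H99.Half.mc cl c))
        ≤ 2 ^ n * (11 * n + 2 * Real.sqrt (numWeights a) * n) := by gcongr
      _ = _ := by ring

end Pool.Agent.Results.MP_058dd4_co.DistinctWeights
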